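import Pool.Agent.H87.QP.Targets

/-!
# Row MNW of the board qp_modules: a long window and its short subwindows
-/

set_option autoImplicit false

namespace Pool.Agent.H40.QP

open Finset Pool.Agent.H87.QP

lemma ioc_range (F : ℕ → ℝ) (n L : ℕ) :
    ∑ u ∈ Ioc n (n + L), F u = ∑ i ∈ range L, F (n + 1 + i) := by
  induction L with
  | zero => simp
  | succ L ih =>
    rw [← Nat.add_assoc, Finset.sum_Ioc_succ_top (by omega), ih, Finset.sum_range_succ]
    congr 2
    omega

lemma shift_sum (g : ℕ → ℝ) (hg : ∀ m, |g m| ≤ 1) (L n j : ℕ) :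
    |∑ u ∈ Ioc n (n + L), g u - ∑ u ∈ Ioc n (n + L), g (u + j)| ≤ 2 * j := by
  induction j with
  | zero => simp
  | succ j ih =>
    have h1 : ∑ u ∈ Ioc n (n + L), g (u + (j + 1)) - ∑ u ∈ Ioc n (n + L), g (u + j) =
        g (n + 1 + L + j) - g (n + 1 + 0 + j) := by
      rw [ioc_range, ioc_range, ← Finset.sum_sub_distrib,
        ← Finset.sum_range_sub (fun i => g (n + 1 + i + j)) L]
      refine Finset.sum_congr rfl fun i _ => ?_
      congr 2
      omega
    have h2 : |g (n + 1 + L + j) - g (n + 1 + 0 + j)| ≤ 2 := by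
      have a1 := abs_le.1 (hg (n + 1 + L + j))
      have a2 := abs_le.1 (hg (n + 1 + 0 + j))
      rw [abs_le]
      constructor <;> linarith [a1.1, a1.2, a2.1, a2.2]
    have a3 := abs_le.1 ih
    have a4 := abs_le.1 h2
    rw [abs_le]
    push_cast
    constructor <;> linarith [a3.1, a3.2, a4.1, a4.2, h1]

theorem pf_MNW : T_MNW := by
  intro lam H q L L' n hL' hLL hl
  have hL0 : (0 : ℝ) < L := by
    have : 0 < L := by omega
    exact_mod_cast this
  have hL'0 : (0 : ℝ) < L' := by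
    have : 0 < L' := by omega
    exact_mod_cast this
  have hmx0 : ∀ u, 0 ≤ mx H (fun h => |rh lam L' u (q * h)|) := fun u =>
    mx_nonneg H fun h => abs_nonneg _
  have hR0 : 0 ≤ (∑ u ∈ Ioc n (n + L), mx H (fun h => |rh lam L' u (q * h)|)) / L +
      2 * L' / L := by
    have h1 : 0 ≤ ∑ u ∈ Ioc n (n + L), mx H (fun h => |rh lam L' u (q * h)|) :=
      Finset.sum_nonneg fun u _ => hmx0 u
    positivity
  refine mx_le_of_nonneg hR0 ?_
  intro h h1 h2
  set g : ℕ → ℝ := fun m => lam m * lam (m + q * h) with hg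
  have hg1 : ∀ m, |g m| ≤ 1 := by
    intro m
    rw [hg]
    simp only
    rw [abs_mul]
    exact mul_le_one₀ (hl _) (abs_nonneg _) (hl _)
  set S := ∑ u ∈ Ioc n (n + L), g u with hS
  have e1 : ∑ u ∈ Ioc n (n + L), rh lam L' u (q * h) =
      (∑ j ∈ range L', ∑ u ∈ Ioc n (n + L), g (u + (1 + j))) / L' := by
    rw [Finset.sum_comm, Finset.sum_div]
    refine Finset.sum_congr rfl fun u _ => ?_
    have : rh lam L' u (q * h) = (∑ m ∈ Ioc u (u + L'), g m) / L' := rfl
    rw [this, ioc_range]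
    congr 1
    refine Finset.sum_congr rfl fun j _ => ?_
    congr 1
    omega
  have e2 : |L' * S - ∑ j ∈ range L', ∑ u ∈ Ioc n (n + L), g (u + (1 + j))| ≤
      L' * (2 * L') := by
    have e3 : (L' : ℝ) * S = ∑ j ∈ range L', S := by simp
    rw [e3, ← Finset.sum_sub_distrib]
    refine (Finset.abs_sum_le_sum_abs _ _).trans ?_
    calc ∑ j ∈ range L', |S - ∑ u ∈ Ioc n (n + L), g (u + (1 + j))| ≤
        ∑ j ∈ range L', (2 * (L' : ℝ)) := by
          refine Finset.sum_le_sum fun j hj => ?_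
          refine (shift_sum g hg1 L n (1 + j)).trans ?_
          have : 1 + j ≤ L' := by
            have := Finset.mem_range.1 hj
            omega
          have : ((1 + j : ℕ) : ℝ) ≤ L' := by exact_mod_cast this
          linarith
      _ = L' * (2 * L') := by simp
  have e4 : |S - ∑ u ∈ Ioc n (n + L), rh lam L' u (q * h)| ≤ 2 * L' := by
    rw [e1]
    have : S - (∑ j ∈ range L', ∑ u ∈ Ioc n (n + L), g (u + (1 + j))) / L' =
        (L' * S - ∑ j ∈ range L', ∑ u ∈ Ioc n (n + L), g (u + (1 + j))) / L' := by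
      field_simp
    rw [this, abs_div, abs_of_pos hL'0, div_le_iff₀ hL'0]
    linarith
  have e5 : |S| ≤ (∑ u ∈ Ioc n (n + L), mx H (fun h => |rh lam L' u (q * h)|)) + 2 * L' := by
    have e6 : |∑ u ∈ Ioc n (n + L), rh lam L' u (q * h)| ≤
        ∑ u ∈ Ioc n (n + L), mx H (fun h => |rh lam L' u (q * h)|) :=
      (Finset.abs_sum_le_sum_abs _ _).trans (Finset.sum_le_sum fun u _ =>
        le_mx (fun h => |rh lam L' u (q * h)|) h1 h2)
    have e7 : |S| ≤ |S - ∑ u ∈ Ioc n (n + L), rh lam L' u (q * h)| +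
        |∑ u ∈ Ioc n (n + L), rh lam L' u (q * h)| := by
      have := abs_add_le (S - ∑ u ∈ Ioc n (n + L), rh lam L' u (q * h))
        (∑ u ∈ Ioc n (n + L), rh lam L' u (q * h))
      rwa [sub_add_cancel] at this
    linarith
  have e8 : |rh lam L n (q * h)| = |S| / L := by
    have : rh lam L n (q * h) = S / L := rfl
    rw [this, abs_div, abs_of_pos hL0]
  show |rh lam L n (q * h)| ≤ _
  rw [e8, ← add_div]
  exact div_le_div_of_nonneg_right e5 hL0.le

end Pool.Agent.H40.QP
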